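import Mathlib

/-!
# mm-spaces and the box distance: base definitions
-/

open Set Filter Topology MeasureTheory NNReal ENNReal

namespace Q178.Box

/-- An mm-space: a complete separable metric space with a Borel probability measure whose support
is the whole space. -/
structure MMSpace where
  /-- the underlying set -/
  carrier : Type
  [metric : MetricSpace carrier]
  [complete : CompleteSpace carrier]
  [separable : TopologicalSpace.SeparableSpace carrier]
  [meas : MeasurableSpace carrier]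
  [borel : BorelSpace carrier]
  /-- the measure -/
  μ : Measure carrier
  [prob : IsProbabilityMeasure μ]
  /-- the support is the whole space -/
  full : μ.support = univ

attribute [instance] MMSpace.metric MMSpace.complete MMSpace.separable MMSpace.meas
  MMSpace.borel MMSpace.prob

instance : CoeSort MMSpace Type := ⟨MMSpace.carrier⟩

instance (X : MMSpace) : SecondCountableTopology X :=
  UniformSpace.secondCountable_of_separable _

/-- Two mm-spaces are identified when an isometry between them pushes one measure to the other. -/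
def Iso (X Y : MMSpace) : Prop := ∃ e : X ≃ᵢ Y, Measure.map e X.μ = Y.μ

/-- Lebesgue measure on `I = [0,1)`. -/
noncomputable def leb : Measure (Ico (0 : ℝ) 1) := volume.comap Subtype.val

/-- Parameters of an mm-space. -/
def IsParam (X : MMSpace) (φ : Ico (0 : ℝ) 1 → X) : Prop :=
  Measurable φ ∧ Measure.map φ leb = X.μ

/-- The number `ε` is admissible in the definition of the box distance. -/
def BoxGood (ε : ℝ≥0) (X Y : MMSpace) : Prop :=
  ∃ (φ : Ico (0 : ℝ) 1 → X) (ψ : Ico (0 : ℝ) 1 → Y), IsParam X φ ∧ IsParam Y ψ ∧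
    ∃ I₀ : Set (Ico (0 : ℝ) 1), MeasurableSet I₀ ∧ 1 - (ε : ℝ≥0∞) ≤ leb I₀ ∧
      ∀ s ∈ I₀, ∀ t ∈ I₀, |dist (φ s) (φ t) - dist (ψ s) (ψ t)| ≤ ε

/-- The box distance between mm-spaces. -/
noncomputable def boxSp (X Y : MMSpace) : ℝ≥0∞ := ⨅ (ε : ℝ≥0) (_ : BoxGood ε X Y), (ε : ℝ≥0∞)

/-! ### First properties -/

theorem Iso.refl (X : MMSpace) : Iso X X := ⟨IsometryEquiv.refl _, Measure.map_id⟩

theorem Iso.symm {X Y : MMSpace} (h : Iso X Y) : Iso Y X := by
  obtain ⟨e, he⟩ := h
  refine ⟨e.symm, ?_⟩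
  rw [← he, Measure.map_map e.symm.continuous.measurable e.continuous.measurable]
  have : (⇑e.symm ∘ ⇑e) = id := by
    funext x
    simp
  rw [this, Measure.map_id]

theorem Iso.trans {X Y Z : MMSpace} (h : Iso X Y) (h' : Iso Y Z) : Iso X Z := by
  obtain ⟨e, he⟩ := h
  obtain ⟨f, hf⟩ := h'
  refine ⟨e.trans f, ?_⟩
  rw [← hf, ← he, Measure.map_map f.continuous.measurable e.continuous.measurable]
  rfl

theorem IsParam.iso {X Y : MMSpace} {e : X ≃ᵢ Y} (he : Measure.map e X.μ = Y.μ)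
    {φ : Ico (0 : ℝ) 1 → X} (h : IsParam X φ) : IsParam Y (e ∘ φ) := by
  refine ⟨e.continuous.measurable.comp h.1, ?_⟩
  rw [← Measure.map_map e.continuous.measurable h.1, h.2, he]

theorem BoxGood.iso {ε : ℝ≥0} {X Y X' Y' : MMSpace} (h : BoxGood ε X Y) (hX : Iso X X')
    (hY : Iso Y Y') : BoxGood ε X' Y' := by
  obtain ⟨e, he⟩ := hX
  obtain ⟨f, hf⟩ := hY
  obtain ⟨φ, ψ, hφ, hψ, I₀, hI, hI', hd⟩ := h
  refine ⟨e ∘ φ, f ∘ ψ, hφ.iso he, hψ.iso hf, I₀, hI, hI', ?_⟩
  intro s hs t ht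
  simp only [Function.comp_apply, e.dist_eq, f.dist_eq]
  exact hd s hs t ht

theorem BoxGood.symm {ε : ℝ≥0} {X Y : MMSpace} (h : BoxGood ε X Y) : BoxGood ε Y X := by
  obtain ⟨φ, ψ, hφ, hψ, I₀, hI, hI', hd⟩ := h
  refine ⟨ψ, φ, hψ, hφ, I₀, hI, hI', ?_⟩
  intro s hs t ht
  rw [abs_sub_comm]
  exact hd s hs t ht

theorem boxSp_comm (X Y : MMSpace) : boxSp X Y = boxSp Y X := by
  exact iInf_congr fun ε => iInf_congr_Prop ⟨BoxGood.symm, BoxGood.symm⟩ fun _ => rfl

theorem boxSp_iso {X Y X' Y' : MMSpace} (hX : Iso X X') (hY : Iso Y Y') :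
    boxSp X Y = boxSp X' Y' := by
  exact iInf_congr fun ε => iInf_congr_Prop
    ⟨fun h => h.iso hX hY, fun h => h.iso hX.symm hY.symm⟩ fun _ => rfl

end Q178.Box
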