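import Mathlib

/-!
# Couplings of measures with a common partition of unity
-/

open Set Filter Topology MeasureTheory NNReal ENNReal

namespace Q178.Box

variable {Z : Type} [MeasurableSpace Z]

/-- the independent coupling of two measures of the same mass -/
noncomputable def indep (α β : Measure Z) : Measure (Z × Z) := (α univ)⁻¹ • α.prod β

theorem indep_fst (α β : Measure Z) [IsFiniteMeasure α] [IsFiniteMeasure β]
    (h : α univ = β univ) : Measure.map Prod.fst (indep α β) = α := by
  rw [indep, Measure.map_smul, Measure.map_fst_prod, ← h, smul_smul]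
  by_cases h0 : α univ = 0
  · rw [Measure.measure_univ_eq_zero.1 h0]
    simp
  · rw [ENNReal.inv_mul_cancel h0 (measure_ne_top _ _), one_smul]

theorem indep_snd (α β : Measure Z) [IsFiniteMeasure α] [IsFiniteMeasure β]
    (h : α univ = β univ) : Measure.map Prod.snd (indep α β) = β := by
  rw [indep, Measure.map_smul, Measure.map_snd_prod, smul_smul]
  by_cases h0 : α univ = 0
  · rw [h0] at h
    rw [Measure.measure_univ_eq_zero.1 h.symm]
    simp
  · rw [ENNReal.inv_mul_cancel h0 (measure_ne_top _ _), one_smul]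

theorem indep_univ (α β : Measure Z) [IsFiniteMeasure α] [IsFiniteMeasure β]
    (h : α univ = β univ) : indep α β univ = α univ := by
  have h1 : Measure.map Prod.fst (indep α β) univ = α univ :=
    congrArg (fun m => m univ) (indep_fst α β h)
  rwa [Measure.map_apply measurable_fst MeasurableSet.univ, preimage_univ] at h1

/-- extracting a prescribed amount of mass from each piece -/
theorem extract {ι : Type} [Fintype ι] (ν : Measure Z) [IsProbabilityMeasure ν]
    (h : ι → Z → ℝ≥0∞) (hm : ∀ i, Measurable (h i)) (h1 : ∀ z, ∑ i, h i z = 1)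
    (E : ι → Set Z) (hE : ∀ i, MeasurableSet (E i)) (hE' : ∀ i, ∀ z ∉ E i, h i z = 0)
    (a : ι → ℝ≥0∞) (ha : ∀ i, a i ≤ ∫⁻ z, h i z ∂ν) :
    ∃ (α : ι → Measure Z) (ρ : Measure Z), (∑ i, α i) + ρ = ν ∧ (∀ i, α i univ = a i) ∧
      ∀ i, α i (E i)ᶜ = 0 := by
  let ν' : ι → Measure Z := fun i => ν.withDensity (h i)
  have hν' : ∀ i, ν' i univ = ∫⁻ z, h i z ∂ν := by
    intro i
    rw [withDensity_apply _ MeasurableSet.univ, Measure.restrict_univ]
  have hsum : ∑ i, ν' i = ν := by
    refine Measure.ext fun A hA => ?_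
    rw [Measure.finsetSum_apply]
    have h2 : ∀ i, ν' i A = ∫⁻ z in A, h i z ∂ν := fun i => withDensity_apply _ hA
    simp only [h2]
    rw [← lintegral_finsetSum _ fun i _ => hm i]
    simp only [h1]
    simp
  have hle1 : ∀ i, ∫⁻ z, h i z ∂ν ≤ 1 := by
    intro i
    have h2 : ∀ z, h i z ≤ 1 := by
      intro z
      rw [← h1 z]
      exact Finset.single_le_sum (f := fun i => h i z) (fun _ _ => zero_le) (Finset.mem_univ i)
    calc ∫⁻ z, h i z ∂ν ≤ ∫⁻ _, 1 ∂ν := lintegral_mono h2
      _ = 1 := by simp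
  have hne : ∀ i, ∫⁻ z, h i z ∂ν ≠ ⊤ := fun i => ((hle1 i).trans_lt ENNReal.one_lt_top).ne
  let t : ι → ℝ≥0∞ := fun i => a i / ∫⁻ z, h i z ∂ν
  have ht : ∀ i, t i ≤ 1 := fun i => ENNReal.div_le_of_le_mul (by rw [one_mul]; exact ha i)
  refine ⟨fun i => t i • ν' i, ∑ i, (1 - t i) • ν' i, ?_, ?_, ?_⟩
  · rw [← Finset.sum_add_distrib]
    conv_rhs => rw [← hsum]
    refine Finset.sum_congr rfl fun i _ => ?_
    rw [← add_smul, add_tsub_cancel_of_le (ht i), one_smul]
  · intro i
    rw [Measure.smul_apply, hν', smul_eq_mul]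
    by_cases h0 : ∫⁻ z, h i z ∂ν = 0
    · rw [h0, mul_zero]
      exact (le_antisymm ((ha i).trans h0.le) zero_le).symm
    · exact ENNReal.div_mul_cancel h0 (hne i)
  · intro i
    rw [Measure.smul_apply, smul_eq_mul]
    have h2 : ν' i (E i)ᶜ = 0 := by
      show ν.withDensity (h i) (E i)ᶜ = 0
      rw [withDensity_apply _ (hE i).compl]
      rw [setLIntegral_congr_fun (hE i).compl (fun z hz => hE' i z hz)]
      simp
    rw [h2, mul_zero]

/-- The coupling. -/
theorem exists_coupling {ι : Type} [Fintype ι] (ν ν' : Measure Z) [IsProbabilityMeasure ν]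
    [IsProbabilityMeasure ν']
    (h : ι → Z → ℝ≥0∞) (hm : ∀ i, Measurable (h i)) (h1 : ∀ z, ∑ i, h i z = 1)
    (E : ι → Set Z) (hE : ∀ i, MeasurableSet (E i)) (hE' : ∀ i, ∀ z ∉ E i, h i z = 0)
    (a : ι → ℝ≥0∞) (ha : ∀ i, a i ≤ ∫⁻ z, h i z ∂ν) (ha' : ∀ i, a i ≤ ∫⁻ z, h i z ∂ν') :
    ∃ π : Measure (Z × Z), Measure.map Prod.fst π = ν ∧ Measure.map Prod.snd π = ν' ∧
      ∀ S : Set (Z × Z), MeasurableSet S → (∀ i, ∀ x ∈ E i, ∀ y ∈ E i, (x, y) ∈ S) →
        ∑ i, a i ≤ π S := by
  obtain ⟨α, ρ, hα, hαa, hαE⟩ := extract ν h hm h1 E hE hE' a ha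
  obtain ⟨β, σ, hβ, hβa, hβE⟩ := extract ν' h hm h1 E hE hE' a ha'
  have hmass : ∑ i, a i + ρ univ = 1 := by
    have h2 := congrArg (fun m => m univ) hα
    simp only [Measure.add_apply, Measure.finsetSum_apply, hαa, measure_univ] at h2
    exact h2
  have hmass' : ∑ i, a i + σ univ = 1 := by
    have h2 := congrArg (fun m => m univ) hβ
    simp only [Measure.add_apply, Measure.finsetSum_apply, hβa, measure_univ] at h2
    exact h2
  have hfin : ∑ i, a i ≠ ⊤ := by
    intro h2
    rw [h2, top_add] at hmass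
    exact ENNReal.one_ne_top hmass.symm
  have hai : ∀ i, a i ≠ ⊤ := fun i =>
    ne_top_of_le_ne_top hfin (Finset.single_le_sum (fun _ _ => zero_le) (Finset.mem_univ i))
  have hρσ : ρ univ = σ univ := (ENNReal.add_right_inj hfin).1 (hmass.trans hmass'.symm)
  have hρ : IsFiniteMeasure ρ := ⟨lt_of_le_of_lt (by rw [← hmass]; exact le_add_self)
    ENNReal.one_lt_top⟩
  have hσ : IsFiniteMeasure σ := ⟨lt_of_le_of_lt (by rw [← hmass']; exact le_add_self)
    ENNReal.one_lt_top⟩
  have hαf : ∀ i, IsFiniteMeasure (α i) := fun i => ⟨by rw [hαa]; exact (hai i).lt_top⟩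
  have hβf : ∀ i, IsFiniteMeasure (β i) := fun i => ⟨by rw [hβa]; exact (hai i).lt_top⟩
  have hαβ : ∀ i, α i univ = β i univ := fun i => by rw [hαa, hβa]
  have hmapsum : ∀ (f : Z × Z → Z), Measurable f → Measure.map f (∑ i, indep (α i) (β i)) =
      ∑ i, Measure.map f (indep (α i) (β i)) := by
    intro f hf
    refine Measure.ext fun A hA => ?_
    rw [Measure.map_apply hf hA, Measure.finsetSum_apply, Measure.finsetSum_apply]
    exact Finset.sum_congr rfl fun i _ => (Measure.map_apply hf hA).symm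
  refine ⟨(∑ i, indep (α i) (β i)) + indep ρ σ, ?_, ?_, ?_⟩
  · rw [Measure.map_add _ _ measurable_fst, hmapsum _ measurable_fst, indep_fst ρ σ hρσ,
      Finset.sum_congr rfl fun i _ => indep_fst (α i) (β i) (hαβ i), hα]
  · rw [Measure.map_add _ _ measurable_snd, hmapsum _ measurable_snd, indep_snd ρ σ hρσ,
      Finset.sum_congr rfl fun i _ => indep_snd (α i) (β i) (hαβ i), hβ]
  · intro S hS hSE
    rw [Measure.add_apply, Measure.finsetSum_apply]
    refine le_trans (Finset.sum_le_sum fun i _ => ?_) (le_add_right le_rfl)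
    have h2 : indep (α i) (β i) Sᶜ = 0 := by
      refine measure_mono_null (t := Prod.fst ⁻¹' (E i)ᶜ ∪ Prod.snd ⁻¹' (E i)ᶜ) ?_ ?_
      · rintro ⟨x, y⟩ hxy
        by_cases hx : x ∈ E i
        · right
          intro hy
          exact hxy (hSE i x hx y hy)
        · left
          exact hx
      · refine measure_union_null ?_ ?_
        · rw [← Measure.map_apply measurable_fst (hE i).compl, indep_fst _ _ (hαβ i)]
          exact hαE i
        · rw [← Measure.map_apply measurable_snd (hE i).compl, indep_snd _ _ (hαβ i)]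
          exact hβE i
    have h3 : indep (α i) (β i) S + indep (α i) (β i) Sᶜ = a i := by
      rw [measure_add_measure_compl hS, indep_univ _ _ (hαβ i), hαa]
    rw [← h3, h2, add_zero]

end Q178.Box
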