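import Pool.Agent.Q178.Box.Key
import Pool.Agent.Q178.Box.Coupling

/-!
# The classes of the measures on a compact metric space form a compact set
-/

open Set Filter Topology MeasureTheory NNReal ENNReal

namespace Q178.Box

variable (Z : Type) [MetricSpace Z] [CompactSpace Z] [MeasurableSpace Z] [BorelSpace Z]

section pou

variable {Z} {ι : Type} [Fintype ι] (z : ι → Z) (η : ℝ)

/-- bumps -/
noncomputable def bump (i : ι) (x : Z) : ℝ := max 0 (η - dist x (z i))

omit [CompactSpace Z] [MeasurableSpace Z] [BorelSpace Z] [Fintype ι] in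
theorem bump_nonneg (i : ι) (x : Z) : 0 ≤ bump z η i x := le_max_left _ _

omit [CompactSpace Z] [MeasurableSpace Z] [BorelSpace Z] [Fintype ι] in
theorem continuous_bump (i : ι) : Continuous (bump z η i) := by
  unfold bump
  fun_prop

omit [CompactSpace Z] [MeasurableSpace Z] [BorelSpace Z] in
theorem sum_bump_pos (hz : ∀ x, ∃ i, dist x (z i) < η) (x : Z) : 0 < ∑ i, bump z η i x := by
  obtain ⟨i, hi⟩ := hz x
  refine lt_of_lt_of_le ?_ (Finset.single_le_sum (f := fun i => bump z η i x)
    (fun i _ => bump_nonneg z η i x) (Finset.mem_univ i))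
  exact lt_of_lt_of_le (by linarith) (le_max_right 0 (η - dist x (z i)))

/-- the partition of unity -/
noncomputable def pou (hz : ∀ x, ∃ i, dist x (z i) < η) (i : ι) : BoundedContinuousFunction Z ℝ≥0 :=
  BoundedContinuousFunction.mkOfCompact ⟨fun x => Real.toNNReal (bump z η i x / ∑ j, bump z η j x),
    continuous_real_toNNReal.comp ((continuous_bump z η i).div
      (continuous_finsetSum _ fun j _ => continuous_bump z η j)
      fun x => (sum_bump_pos z η hz x).ne')⟩

omit [MeasurableSpace Z] [BorelSpace Z] in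
theorem pou_apply (hz : ∀ x, ∃ i, dist x (z i) < η) (i : ι) (x : Z) :
    pou z η hz i x = Real.toNNReal (bump z η i x / ∑ j, bump z η j x) := rfl

omit [MeasurableSpace Z] [BorelSpace Z] in
theorem sum_pou (hz : ∀ x, ∃ i, dist x (z i) < η) (x : Z) :
    ∑ i, ((pou z η hz i x : ℝ≥0) : ℝ≥0∞) = 1 := by
  have h1 : ∑ i, pou z η hz i x = 1 := by
    simp only [pou_apply]
    rw [← Real.toNNReal_sum_of_nonneg fun i _ =>
      div_nonneg (bump_nonneg z η i x) (sum_bump_pos z η hz x).le]
    rw [← Finset.sum_div, div_self (sum_bump_pos z η hz x).ne', Real.toNNReal_one]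
  rw [← ENNReal.ofNNReal_finsetSum, h1, ENNReal.coe_one]

omit [MeasurableSpace Z] [BorelSpace Z] in
theorem pou_zero (hz : ∀ x, ∃ i, dist x (z i) < η) (i : ι) {x : Z} (hx : x ∉ Metric.ball (z i) η) :
    pou z η hz i x = 0 := by
  rw [pou_apply]
  have h1 : bump z η i x = 0 := by
    rw [Metric.mem_ball, not_lt] at hx
    exact max_eq_left (by linarith)
  rw [h1, zero_div, Real.toNNReal_zero]

end pou

/-- the class of a probability measure -/
noncomputable def toMM (ν : ProbabilityMeasure Z) : MM := (core Z (ν : Measure Z)).cls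

theorem continuous_toMM : Continuous (toMM Z) := by
  rw [continuous_iff_continuousAt]
  intro ν
  rw [ContinuousAt, EMetric.tendsto_nhds]
  intro ε hε
  obtain ⟨r, hr0, hrε⟩ := ENNReal.lt_iff_exists_nnreal_btwn.1 hε
  have hr0' : (0 : ℝ≥0) < r := by exact_mod_cast hr0
  let η : ℝ≥0 := r / 4
  have hη : 0 < η := by positivity
  have hη4 : ((4 * η : ℝ≥0) : ℝ≥0∞) < ε := by
    have : 4 * η = r := by
      show 4 * (r / 4) = r
      field_simp
    rw [this]
    exact hrε
  obtain ⟨t, _, htf, ht⟩ := finite_cover_balls_of_compact (isCompact_univ (X := Z))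
    (show (0 : ℝ) < η from hη)
  have : Fintype t := htf.fintype
  let z : t → Z := Subtype.val
  have hz : ∀ x, ∃ i, dist x (z i) < (η : ℝ) := by
    intro x
    obtain ⟨y, hy, hxy⟩ := mem_iUnion₂.1 (ht (mem_univ x))
    exact ⟨⟨y, hy⟩, hxy⟩
  let H := pou z (η : ℝ) hz
  let c : ℝ≥0 := η / (Fintype.card t + 1)
  have hc : 0 < c := by positivity
  have hcard : Fintype.card t * (c : ℝ≥0∞) ≤ η := by
    have h1 : (Fintype.card t : ℝ≥0) * c ≤ η := by
      show (Fintype.card t : ℝ≥0) * (η / (Fintype.card t + 1)) ≤ η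
      rw [mul_div_assoc', div_le_iff₀ (by positivity), mul_comm]
      gcongr
      exact le_self_add
    exact_mod_cast h1
  have hev : ∀ i, ∀ᶠ ν' : ProbabilityMeasure Z in 𝓝 ν,
      ∫⁻ x, H i x ∂(ν : Measure Z) ≤ ∫⁻ x, H i x ∂(ν' : Measure Z) + c := by
    intro i
    have hcont : Continuous fun ν' : ProbabilityMeasure Z => ν'.toFiniteMeasure.testAgainstNN (H i) :=
      (FiniteMeasure.continuous_testAgainstNN_eval (H i)).comp
        ProbabilityMeasure.toFiniteMeasure_continuous
    have h1 : ∀ᶠ ν' : ProbabilityMeasure Z in 𝓝 ν,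
        ν.toFiniteMeasure.testAgainstNN (H i) < ν'.toFiniteMeasure.testAgainstNN (H i) + c :=
      ((hcont.add continuous_const).tendsto ν).eventually (lt_mem_nhds (lt_add_of_pos_right _ hc))
    filter_upwards [h1] with ν' hν'
    have h2 : ((ν.toFiniteMeasure.testAgainstNN (H i) : ℝ≥0) : ℝ≥0∞) ≤
        (ν'.toFiniteMeasure.testAgainstNN (H i) : ℝ≥0) + (c : ℝ≥0) := by
      exact_mod_cast hν'.le
    rw [FiniteMeasure.testAgainstNN_coe_eq, FiniteMeasure.testAgainstNN_coe_eq] at h2
    exact h2
  filter_upwards [eventually_all.2 hev] with ν' hν'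
  show box (toMM Z ν') (toMM Z ν) < ε
  have hcomm : box (toMM Z ν') (toMM Z ν) = box (toMM Z ν) (toMM Z ν') := edist_comm (α := MM) _ _
  rw [hcomm]
  refine lt_of_le_of_lt ?_ hη4
  let a : t → ℝ≥0∞ := fun i => ∫⁻ x, H i x ∂(ν : Measure Z) - c
  obtain ⟨π, hπ1, hπ2, hπS⟩ := exists_coupling (ν : Measure Z) (ν' : Measure Z)
    (fun i x => ((H i x : ℝ≥0) : ℝ≥0∞))
    (fun i => measurable_coe_nnreal_ennreal.comp (H i).continuous.measurable)
    (fun x => sum_pou z η hz x) (fun i => Metric.ball (z i) η) (fun i => measurableSet_ball)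
    (fun i x hx => by rw [pou_zero z η hz i hx, ENNReal.coe_zero]) a
    (fun i => tsub_le_self) (fun i => tsub_le_iff_right.2 (hν' i))
  have hπp : IsProbabilityMeasure π := by
    constructor
    have h1 : Measure.map Prod.fst π univ = 1 := by rw [hπ1]; exact measure_univ
    rwa [Measure.map_apply measurable_fst MeasurableSet.univ, preimage_univ] at h1
  have hsum : 1 - (η : ℝ≥0∞) ≤ ∑ i, a i := by
    rw [tsub_le_iff_right]
    have h1 : ∑ i, ∫⁻ x, H i x ∂(ν : Measure Z) = 1 := by
      have h2 := lintegral_finsetSum (μ := (ν : Measure Z)) Finset.univ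
        (f := fun (i : t) x => ((H i x : ℝ≥0) : ℝ≥0∞)) fun i _ =>
        measurable_coe_nnreal_ennreal.comp (H i).continuous.measurable
      rw [← h2, lintegral_congr fun x => sum_pou z η hz x]
      simp
    calc (1 : ℝ≥0∞) = ∑ i, ∫⁻ x, H i x ∂(ν : Measure Z) := h1.symm
      _ ≤ ∑ i, (a i + c) := Finset.sum_le_sum fun i _ => le_tsub_add
      _ = ∑ i, a i + Fintype.card t * (c : ℝ≥0∞) := by
        rw [Finset.sum_add_distrib, Finset.sum_const, Finset.card_univ, nsmul_eq_mul]
      _ ≤ ∑ i, a i + η := by gcongr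
  have : SecondCountableTopology Z := inferInstance
  have hpol : PolishSpace Z := inferInstance
  let S : Set (Z × Z) := {p | dist p.1 p.2 ≤ 2 * η}
  have hS : MeasurableSet S := (isClosed_le (by fun_prop) continuous_const).measurableSet
  have hπS' := hπS S hS fun i x hx y hy => by
    show dist x y ≤ 2 * η
    have h1 : dist x (z i) < η := hx
    have h2 : dist y (z i) < η := hy
    have h3 := dist_triangle_right x y (z i)
    linarith
  refine box_core_core_le (ν : Measure Z) π (ν' : Measure Z) measurable_fst measurable_snd hπ1 hπ2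
    hS ?_ ?_
  · refine (prob_compl_le hS (hsum.trans hπS')).trans ?_
    have : η ≤ 4 * η := by
      have : (1 : ℝ≥0) ≤ 4 := by norm_num
      exact le_mul_of_one_le_left zero_le this
    exact_mod_cast this
  · rintro ⟨x, y⟩ hxy ⟨x', y'⟩ hxy'
    have h1 : dist x y ≤ 2 * η := hxy
    have h2 : dist x' y' ≤ 2 * η := hxy'
    have h3 := dist_dist_dist_le x x' y y'
    rw [Real.dist_eq] at h3
    push_cast
    linarith

theorem isCompact_range_toMM : IsCompact (range (toMM Z)) :=
  isCompact_range (continuous_toMM Z)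

end Q178.Box
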