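import Pool.Agent.Q178.Box.Defs

/-!
# The mm-space of a measure on a Polish metric space
-/

open Set Filter Topology MeasureTheory NNReal ENNReal

namespace Q178.Box

section core

variable (Z : Type) [MetricSpace Z] [CompleteSpace Z] [TopologicalSpace.SeparableSpace Z]
  [MeasurableSpace Z] [BorelSpace Z] (ν : Measure Z) [IsProbabilityMeasure ν]

omit [CompleteSpace Z] [TopologicalSpace.SeparableSpace Z] [IsProbabilityMeasure ν] in
theorem measurableSet_support : MeasurableSet ν.support :=
  Measure.isClosed_support.measurableSet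

omit [CompleteSpace Z] [TopologicalSpace.SeparableSpace Z] [IsProbabilityMeasure ν] in
theorem embedding_support : MeasurableEmbedding (Subtype.val : ν.support → Z) :=
  MeasurableEmbedding.subtype_coe (measurableSet_support Z ν)

omit [CompleteSpace Z] [BorelSpace Z] [IsProbabilityMeasure ν] in
theorem support_compl_null : ν ν.supportᶜ = 0 := by
  have : SecondCountableTopology Z := UniformSpace.secondCountable_of_separable _
  exact Measure.measure_compl_support

omit [CompleteSpace Z] [BorelSpace Z] [IsProbabilityMeasure ν] in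
theorem measure_inter_support (A : Set Z) : ν (A ∩ ν.support) = ν A := by
  apply le_antisymm (measure_mono inter_subset_left)
  have h1 : A ⊆ (A ∩ ν.support) ∪ ν.supportᶜ := by
    intro x hx
    by_cases h : x ∈ ν.support
    · exact Or.inl ⟨hx, h⟩
    · exact Or.inr h
  refine (measure_mono h1).trans ((measure_union_le _ _).trans ?_)
  rw [support_compl_null, add_zero]

/-- The mm-space of a measure on a Polish metric space: its support. -/
noncomputable def core : MMSpace where
  carrier := ν.support
  complete := Measure.isClosed_support.completeSpace_coe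
  separable := by
    have : SecondCountableTopology Z := UniformSpace.secondCountable_of_separable _
    infer_instance
  μ := ν.comap Subtype.val
  prob := ⟨by
    rw [(embedding_support Z ν).comap_apply, image_univ, Subtype.range_coe,
      ← univ_inter ν.support, measure_inter_support, measure_univ]⟩
  full := by
    rw [eq_univ_iff_forall]
    intro x
    rw [Measure.mem_support_iff_forall]
    intro U hU
    obtain ⟨V, hV, hVU⟩ := mem_nhds_induced Subtype.val x U |>.1 hU
    rw [(embedding_support Z ν).comap_apply]
    refine lt_of_lt_of_le ((Measure.mem_support_iff_forall _).1 x.2 V hV) ?_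
    rw [← measure_inter_support Z ν V]
    apply measure_mono
    rintro y ⟨hyV, hy⟩
    exact ⟨⟨y, hy⟩, hVU hyV, rfl⟩

variable {Z}

/-- A map with law `ν` lifts to the mm-space of `ν`. -/
theorem exists_lift {Ω : Type} [MeasurableSpace Ω] (m : Measure Ω) [IsProbabilityMeasure m]
    {g : Ω → Z} (hg : Measurable g) (hm : Measure.map g m = ν) :
    ∃ g' : Ω → core Z ν, Measurable g' ∧ Measure.map g' m = (core Z ν).μ ∧
      (∀ ω, g ω ∈ ν.support → (g' ω).1 = g ω) ∧ m (g ⁻¹' ν.support)ᶜ = 0 := by
  classical
  obtain ⟨x₀, hx₀⟩ : ν.support.Nonempty := by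
    by_contra h
    rw [not_nonempty_iff_eq_empty] at h
    have h1 := measure_inter_support Z ν univ
    rw [h, inter_empty, measure_empty, measure_univ] at h1
    exact zero_ne_one h1
  have hms := measurableSet_support Z ν
  have hnull : m (g ⁻¹' ν.support)ᶜ = 0 := by
    rw [← preimage_compl, ← Measure.map_apply hg hms.compl, hm, support_compl_null]
  let g' : Ω → ν.support := fun ω => if h : g ω ∈ ν.support then ⟨g ω, h⟩ else ⟨x₀, hx₀⟩
  have hval : ∀ ω, (g' ω).1 = if g ω ∈ ν.support then g ω else x₀ := by
    intro ω
    by_cases h : g ω ∈ ν.support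
    · simp only [g', dif_pos h, if_pos h]
    · simp only [g', dif_neg h, if_neg h]
  have hg' : Measurable g' := by
    rw [← (embedding_support Z ν).measurable_comp_iff]
    have : (Subtype.val ∘ g') = fun ω => if g ω ∈ ν.support then g ω else x₀ := funext hval
    rw [this]
    exact Measurable.ite (hg hms) hg measurable_const
  refine ⟨g', hg', ?_, fun ω h => ?_, hnull⟩
  · have hA : ∀ A : Set ν.support, MeasurableSet A → Measure.map g' m A = (ν.comap Subtype.val) A := by
      intro A hA
      have h0 : ν (Subtype.val '' A) = m (g ⁻¹' (Subtype.val '' A)) := by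
        rw [← Measure.map_apply hg ((embedding_support Z ν).measurableSet_image.2 hA), hm]
      rw [Measure.map_apply hg' hA, (embedding_support Z ν).comap_apply, h0]
      apply measure_congr
      have h1 : ∀ᵐ ω ∂m, ω ∈ g ⁻¹' ν.support := by
        rw [ae_iff]
        exact hnull
      filter_upwards [h1] with ω hω0
      have hω : g ω ∈ ν.support := hω0
      apply propext
      constructor
      · intro h
        refine ⟨g' ω, h, ?_⟩
        rw [hval, if_pos hω]
      · rintro ⟨a, ha, hag⟩
        have : g' ω = a := Subtype.ext (by rw [hval, if_pos hω, hag])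
        show g' ω ∈ A
        rw [this]
        exact ha
    exact Measure.ext hA
  · show (g' ω).1 = _
    rw [hval, if_pos h]

/-- comparison of an mm-space with the mm-space of a measure -/
theorem box_core_le {Ω : Type} [MeasurableSpace Ω] [StandardBorelSpace Ω] (m : Measure Ω)
    [IsProbabilityMeasure m] {X : MMSpace} {f : Ω → X} {g : Ω → Z} (hf : Measurable f)
    (hg : Measurable g) (hfm : Measure.map f m = X.μ) (hgm : Measure.map g m = ν) {S : Set Ω}
    (hS : MeasurableSet S) {ε : ℝ≥0} (hε : m Sᶜ ≤ ε)
    (hd : ∀ s ∈ S, ∀ t ∈ S, |dist (f s) (f t) - dist (g s) (g t)| ≤ ε) :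
    box X.cls (core Z ν).cls ≤ ε := by
  obtain ⟨g', hg', hg'm, hgg, hnull⟩ := exists_lift ν m hg hgm
  have hms := hg (measurableSet_support Z ν)
  refine boxSp_le (boxGood_of m hf hg' hfm hg'm (hS.inter hms) ?_ ?_)
  · have h1 : m (S ∩ g ⁻¹' ν.support) + m (S ∩ g ⁻¹' ν.support)ᶜ = 1 := by
      rw [measure_add_measure_compl (hS.inter hms), measure_univ]
    rw [tsub_le_iff_right, ← h1]
    gcongr
    rw [compl_inter]
    refine (measure_union_le _ _).trans ?_
    rw [hnull, add_zero]
    exact hε
  · rintro s ⟨hs, hs'⟩ t ⟨ht, ht'⟩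
    have h1 : dist (g' s) (g' t) = dist (g s) (g t) := by
      rw [← hgg s hs', ← hgg t ht']
      rfl
    rw [h1]
    exact hd s hs t ht

/-- comparison of the mm-spaces of two measures on the same space -/
theorem box_core_core_le {Ω : Type} [MeasurableSpace Ω] [StandardBorelSpace Ω] (m : Measure Ω)
    [IsProbabilityMeasure m] (ν' : Measure Z) [IsProbabilityMeasure ν'] {f g : Ω → Z}
    (hf : Measurable f) (hg : Measurable g) (hfm : Measure.map f m = ν)
    (hgm : Measure.map g m = ν') {S : Set Ω}
    (hS : MeasurableSet S) {ε : ℝ≥0} (hε : m Sᶜ ≤ ε)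
    (hd : ∀ s ∈ S, ∀ t ∈ S, |dist (f s) (f t) - dist (g s) (g t)| ≤ ε) :
    box (core Z ν).cls (core Z ν').cls ≤ ε := by
  obtain ⟨f', hf', hf'm, hff, hnull⟩ := exists_lift ν m hf hfm
  have hms := hf (measurableSet_support Z ν)
  refine box_core_le ν' m hf' hg hf'm hgm (hS.inter hms) ?_ ?_
  · rw [compl_inter]
    refine (measure_union_le _ _).trans ?_
    rw [hnull, add_zero]
    exact hε
  · rintro s ⟨hs, hs'⟩ t ⟨ht, ht'⟩
    have h1 : dist (f' s) (f' t) = dist (f s) (f t) := by
      rw [← hff s hs', ← hff t ht']
      rfl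
    rw [h1]
    exact hd s hs t ht

/-- the image of an mm-space under a 1-Lipschitz map is dominated by it -/
theorem dom_core (Y : MMSpace) (f : Y → Z) (hf : LipschitzWith 1 f)
    [IsProbabilityMeasure (Measure.map f Y.μ)] :
    Dom (core Z (Measure.map f Y.μ)).cls Y.cls := by
  have hfc := hf.continuous
  have hmem : ∀ y, f y ∈ (Measure.map f Y.μ).support := by
    intro y
    rw [Measure.mem_support_iff_forall]
    intro U hU
    obtain ⟨V, hVU, hV, hyV⟩ := mem_nhds_iff.1 hU
    refine lt_of_lt_of_le ?_ (measure_mono hVU)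
    rw [Measure.map_apply hfc.measurable hV.measurableSet]
    have hy : y ∈ Y.μ.support := by rw [Y.full]; exact mem_univ _
    exact (Measure.mem_support_iff_forall _).1 hy _ ((hV.preimage hfc).mem_nhds hyV)
  let f' : Y → core Z (Measure.map f Y.μ) := fun y => ⟨f y, hmem y⟩
  have hf' : LipschitzWith 1 f' := fun x y => hf x y
  refine ⟨f', hf', ?_⟩
  refine Measure.ext fun A hA => ?_
  have hA' : MeasurableSet (Subtype.val '' A : Set Z) :=
    (embedding_support Z (Measure.map f Y.μ)).measurableSet_image.2 hA
  have h2 : (core Z (Measure.map f Y.μ)).μ A = (Measure.map f Y.μ) (Subtype.val '' A) :=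
    (embedding_support Z (Measure.map f Y.μ)).comap_apply (Measure.map f Y.μ) A
  rw [Measure.map_apply hf'.continuous.measurable hA, h2, Measure.map_apply hfc.measurable hA']
  congr 1
  ext y
  constructor
  · intro h
    exact ⟨f' y, h, rfl⟩
  · rintro ⟨a, ha, hay⟩
    have : f' y = a := Subtype.ext hay.symm
    show f' y ∈ A
    rw [this]
    exact ha

end core

end Q178.Box
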