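import Pool.Agent.Q178.Box.Tri

/-!
# The space of mm-spaces, pyramids and hyperspace topologies: definitions
-/

open Set Filter Topology MeasureTheory NNReal ENNReal

namespace Q178.Box

instance mmSetoid : Setoid MMSpace := ⟨Iso, Iso.refl, Iso.symm, Iso.trans⟩

/-- The set `𝒳` of classes of mm-spaces. -/
def MM : Type 1 := Quotient mmSetoid

/-- The class of an mm-space. -/
def MMSpace.cls (X : MMSpace) : MM := Quotient.mk mmSetoid X

/-- The box distance on `𝒳`. -/
noncomputable def box : MM → MM → ℝ≥0∞ :=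
  Quotient.lift₂ boxSp fun _ _ _ _ h h' => boxSp_iso h h'

/-- `𝒳` with the box distance. -/
noncomputable instance : PseudoEMetricSpace MM where
  edist := box
  edist_self x := Quotient.inductionOn x boxSp_self
  edist_comm x y := Quotient.inductionOn₂ x y boxSp_comm
  edist_triangle x y z := Quotient.inductionOn₃ x y z boxSp_triangle

/-- The Lipschitz order between mm-spaces: some 1-Lipschitz map `X → Y` pushes `μ_X` to `μ_Y`. -/
def DomSp (Y X : MMSpace) : Prop := ∃ f : X → Y, LipschitzWith 1 f ∧ Measure.map f X.μ = Y.μ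

theorem DomSp.iso {Y X Y' X' : MMSpace} (h : DomSp Y X) (hY : Iso Y Y') (hX : Iso X X') :
    DomSp Y' X' := by
  obtain ⟨f, hf, hfm⟩ := h
  obtain ⟨e, he⟩ := hY
  obtain ⟨g, hg⟩ := hX.symm
  refine ⟨e ∘ f ∘ g, ?_, ?_⟩
  · have h1 := e.isometry.lipschitz.comp (hf.comp g.isometry.lipschitz)
    simpa using h1
  · rw [← Measure.map_map e.continuous.measurable (hf.continuous.comp g.continuous).measurable,
      ← Measure.map_map hf.continuous.measurable g.continuous.measurable, hg, hfm, he]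

/-- The Lipschitz order `y ≺ x` on `𝒳`. -/
def Dom : MM → MM → Prop :=
  Quotient.lift₂ DomSp fun _ _ _ _ h h' =>
    propext ⟨fun H => H.iso h h', fun H => H.iso h.symm h'.symm⟩

/-- Pyramids. -/
structure IsPyramid (P : Set MM) : Prop where
  nonempty : P.Nonempty
  closed : IsClosed P
  down : ∀ x ∈ P, ∀ y, Dom y x → y ∈ P
  directed : ∀ x ∈ P, ∀ y ∈ P, ∃ z ∈ P, Dom x z ∧ Dom y z

/-- The set `Π` of pyramids. -/
def Pyr : Type 1 := {P : Set MM // IsPyramid P}

/-- The distance `□(x, F) = inf_{y ∈ F} □(x, y)`, which is `+∞` for `F = ∅`. -/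
noncomputable def boxSet (x : MM) (F : Set MM) : ℝ≥0∞ := ⨅ y ∈ F, box x y

/-- Weak convergence of pyramids. -/
def WeakConv (P : ℕ → Pyr) (Q : Pyr) : Prop :=
  (∀ x ∈ Q.1, Tendsto (fun n => boxSet x (P n).1) atTop (𝓝 0)) ∧
    ∀ x ∉ Q.1, 0 < liminf (fun n => boxSet x (P n).1) atTop

/-- `τ` is the weak topology on `Π`: it is metrizable, and its convergent sequences are exactly the
weakly convergent ones. -/
def IsWeakTopology (τ : TopologicalSpace Pyr) : Prop :=
  @TopologicalSpace.MetrizableSpace Pyr τ ∧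
    ∀ (P : ℕ → Pyr) (Q : Pyr), Tendsto P atTop (@nhds Pyr τ Q) ↔ WeakConv P Q

/-- The set `ℱ(𝒳, □)` of closed subsets of `(𝒳, □)`. -/
def Cl : Type 1 := {F : Set MM // IsClosed F}

/-- The Fell topology on `ℱ(𝒳, □)`. -/
@[reducible] def fell : TopologicalSpace Cl :=
  TopologicalSpace.generateFrom
    ({A | ∃ U : Set MM, IsOpen U ∧ A = {F : Cl | (F.1 ∩ U).Nonempty}} ∪
      {A | ∃ K : Set MM, IsCompact K ∧ A = {F : Cl | F.1 ∩ K = ∅}})

/-- The Wijsman topology on `ℱ(𝒳, □)`: the weakest topology making `F ↦ □(x, F)` continuous for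
every `x`. -/
@[reducible] noncomputable def wijsman : TopologicalSpace Cl :=
  ⨅ x : MM, TopologicalSpace.induced (fun F : Cl => boxSet x F.1) inferInstance

/-- The inclusion of `Π` in `ℱ(𝒳, □)`. -/
def pyrIncl (P : Pyr) : Cl := ⟨P.1, P.2.closed⟩

end Q178.Box
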