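import Pool.Agent.Q178.Box.Compact

/-!
# The weak topology on pyramids is induced by the Fell and by the Wijsman topology
-/

open Set Filter Topology MeasureTheory NNReal ENNReal

namespace Q178.Box

/-- The sequential topology of weak convergence: the open sets are the sets `U` such that every sequence which
converges weakly to a point of `U` is eventually in `U`. -/
@[reducible] def weakTop : TopologicalSpace Pyr where
  IsOpen U := ∀ Q ∈ U, ∀ P : ℕ → Pyr, WeakConv P Q → ∀ᶠ n in atTop, P n ∈ U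
  isOpen_univ := fun _ _ _ _ => Eventually.of_forall fun _ => mem_univ _
  isOpen_inter := fun _ _ hs ht Q hQ P hP => (hs Q hQ.1 P hP).and (ht Q hQ.2 P hP)
  isOpen_sUnion := fun s hs Q hQ P hP => by
    obtain ⟨U, hU, hQU⟩ := hQ
    exact (hs U hU Q hQU P hP).mono fun _ h => ⟨U, hU, h⟩

theorem boxSet_lt_iff {x : MM} {F : Set MM} {r : ℝ≥0∞} : boxSet x F < r ↔ ∃ y ∈ F, box x y < r := by
  simp only [boxSet, iInf_lt_iff]
  constructor
  · rintro ⟨y, hy, h⟩
    exact ⟨y, hy, h⟩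
  · rintro ⟨y, hy, h⟩
    exact ⟨y, hy, h⟩

theorem boxSet_le {x y : MM} {F : Set MM} (hy : y ∈ F) : boxSet x F ≤ box x y :=
  iInf₂_le_of_le y hy le_rfl

theorem box_triangle (x y z : MM) : box x z ≤ box x y + box y z := edist_triangle (α := MM) x y z

theorem box_comm (x y : MM) : box x y = box y x := edist_comm (α := MM) x y

theorem box_self (x : MM) : box x x = 0 := edist_self (α := MM) x

theorem boxSet_triangle (x y : MM) (F : Set MM) : boxSet x F ≤ box x y + boxSet y F := by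
  rw [boxSet, boxSet, ENNReal.add_iInf]
  refine le_iInf fun z => ?_
  by_cases hz : z ∈ F
  · simp only [hz, iInf_pos]
    exact (iInf₂_le_of_le z hz le_rfl).trans (box_triangle x y z)
  · simp [hz]

/-- every pyramid close to `x` meets a fixed compact set close to `x` -/
theorem exists_compact (x : MM) {δ : ℝ≥0} (hδ : 0 < δ) : ∃ N D : ℕ, ∀ P : Set MM,
    (∀ x ∈ P, ∀ y, Dom y x → y ∈ P) → ∀ r : ℝ≥0∞, boxSet x P < r →
      ∃ z ∈ P, z ∈ range (toMM (Cube N D)) ∧ box x z ≤ r + δ := by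
  obtain ⟨X, rfl⟩ : ∃ X : MMSpace, X.cls = x := Quotient.exists_rep x
  obtain ⟨N, D, h⟩ := key X hδ
  refine ⟨N, D, fun P hP r hr => ?_⟩
  obtain ⟨ν, hν, h1, h2⟩ := h P hP r hr
  exact ⟨_, h1, ⟨⟨ν, hν⟩, rfl⟩, h2⟩

/-- `𝒳` is separable -/
theorem exists_dense : ∃ u : ℕ → MM, ∀ x : MM, ∀ ε > 0, ∃ n, box x (u n) < ε := by
  have hsep : TopologicalSpace.IsSeparable (⋃ q : ℕ × ℕ, range (toMM (Cube q.1 q.2))) := by
    refine TopologicalSpace.IsSeparable.iUnion fun q => ?_
    exact (isCompact_range_toMM _).isSeparable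
  obtain ⟨c, hc, hcl⟩ := hsep
  have hden : ∀ x : MM, ∀ ε > 0, ∃ y ∈ c, box x y < ε := by
    intro x ε hε
    obtain ⟨δ, hδ0, hδ⟩ := ENNReal.lt_iff_exists_nnreal_btwn.1 hε
    have hδ0' : 0 < δ := by exact_mod_cast hδ0
    have hδ3 : (0 : ℝ≥0) < δ / 3 := by positivity
    obtain ⟨N, D, h⟩ := exists_compact x hδ3
    obtain ⟨z, -, hz, hxz⟩ := h univ (fun _ _ _ _ => mem_univ _) ((δ / 3 : ℝ≥0) : ℝ≥0∞)
      (boxSet_lt_iff.2 ⟨x, mem_univ _, by rw [box_self]; exact_mod_cast hδ3⟩)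
    have hz' : z ∈ closure c := hcl (mem_iUnion.2 ⟨(N, D), hz⟩)
    obtain ⟨y, hy, hzy⟩ := EMetric.mem_closure_iff.1 hz' ((δ / 3 : ℝ≥0) : ℝ≥0∞)
      (by exact_mod_cast hδ3)
    refine ⟨y, hy, ?_⟩
    calc box x y ≤ box x z + box z y := box_triangle x z y
      _ ≤ ((δ / 3 : ℝ≥0) + (δ / 3 : ℝ≥0)) + (δ / 3 : ℝ≥0) := add_le_add hxz (le_of_lt hzy)
      _ = (δ : ℝ≥0) := by
        rw [← ENNReal.coe_add, ← ENNReal.coe_add]
        congr 1
        field_simp
        norm_num
      _ < ε := hδ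
  have hne : c.Nonempty := by
    obtain ⟨y, hy, _⟩ := hden (toMM (Cube 0 0) ⟨Measure.dirac (fun _ => ⟨0, le_rfl, by simp⟩),
      inferInstance⟩) 1 one_pos
    exact ⟨y, hy⟩
  obtain ⟨u, hu⟩ := hc.exists_eq_range hne
  refine ⟨u, fun x ε hε => ?_⟩
  obtain ⟨y, hy, h⟩ := hden x ε hε
  rw [hu] at hy
  obtain ⟨n, rfl⟩ := hy
  exact ⟨n, h⟩

theorem boxSet_eq_zero {x : MM} {F : Set MM} (hF : IsClosed F) : boxSet x F = 0 ↔ x ∈ F := by
  constructor
  · intro h
    rw [← hF.closure_eq, EMetric.mem_closure_iff]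
    intro ε hε
    exact boxSet_lt_iff.1 (by rw [h]; exact hε)
  · intro h
    exact le_antisymm ((boxSet_le h).trans (box_self x).le) zero_le

theorem boxSet_ne_top {x : MM} (P : Pyr) : boxSet x P.1 ≠ ⊤ := by
  obtain ⟨y, hy⟩ := P.2.nonempty
  refine ne_top_of_le_ne_top ENNReal.one_ne_top ((boxSet_le hy).trans ?_)
  exact Quotient.inductionOn₂ x y boxSp_le_one

/-- convergence of distances from a dense sequence -/
theorem tendsto_all {u : ℕ → MM} (hu : ∀ x : MM, ∀ ε > 0, ∃ n, box x (u n) < ε) {P : ℕ → Pyr}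
    {Q : Pyr} (h : ∀ i, Tendsto (fun n => boxSet (u i) (P n).1) atTop (𝓝 (boxSet (u i) Q.1)))
    (x : MM) : Tendsto (fun n => boxSet x (P n).1) atTop (𝓝 (boxSet x Q.1)) := by
  rw [ENNReal.tendsto_nhds (boxSet_ne_top Q)]
  intro ε hε
  obtain ⟨δ, hδ0, hδ⟩ := ENNReal.lt_iff_exists_nnreal_btwn.1 hε
  have hδ0' : 0 < δ := by exact_mod_cast hδ0
  have hδ3 : (0 : ℝ≥0) < δ / 3 := by positivity
  have hδ3' : (0 : ℝ≥0∞) < ((δ / 3 : ℝ≥0) : ℝ≥0∞) := by exact_mod_cast hδ3
  have hsum : ((δ / 3 : ℝ≥0) : ℝ≥0∞) + (δ / 3 : ℝ≥0) + (δ / 3 : ℝ≥0) ≤ ε := by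
    rw [← ENNReal.coe_add, ← ENNReal.coe_add]
    refine le_trans (le_of_eq ?_) hδ.le
    congr 1
    field_simp
    norm_num
  obtain ⟨i, hi⟩ := hu x _ hδ3'
  have h1 := (ENNReal.tendsto_nhds (boxSet_ne_top Q)).1 (h i) _ hδ3'
  filter_upwards [h1] with n hn
  have ha := boxSet_triangle x (u i) (P n).1
  have hb := boxSet_triangle (u i) x (P n).1
  have hc := boxSet_triangle x (u i) Q.1
  have hd := boxSet_triangle (u i) x Q.1
  rw [box_comm] at hb hd
  have hn1 : boxSet (u i) Q.1 ≤ boxSet (u i) (P n).1 + (δ / 3 : ℝ≥0) := tsub_le_iff_right.1 hn.1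
  have hn2 : boxSet (u i) (P n).1 ≤ boxSet (u i) Q.1 + (δ / 3 : ℝ≥0) := hn.2
  constructor
  · rw [tsub_le_iff_right]
    calc boxSet x Q.1 ≤ box x (u i) + boxSet (u i) Q.1 := hc
      _ ≤ (δ / 3 : ℝ≥0) + ((box x (u i) + boxSet x (P n).1) + (δ / 3 : ℝ≥0)) :=
        add_le_add hi.le (hn1.trans (by gcongr))
      _ ≤ (δ / 3 : ℝ≥0) + (((δ / 3 : ℝ≥0) + boxSet x (P n).1) + (δ / 3 : ℝ≥0)) := by gcongr
      _ = boxSet x (P n).1 + ((δ / 3 : ℝ≥0) + (δ / 3 : ℝ≥0) + (δ / 3 : ℝ≥0)) := by ring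
      _ ≤ boxSet x (P n).1 + ε := by gcongr
  · calc boxSet x (P n).1 ≤ box x (u i) + boxSet (u i) (P n).1 := ha
      _ ≤ (δ / 3 : ℝ≥0) + ((box x (u i) + boxSet x Q.1) + (δ / 3 : ℝ≥0)) :=
        add_le_add hi.le (hn2.trans (by gcongr))
      _ ≤ (δ / 3 : ℝ≥0) + (((δ / 3 : ℝ≥0) + boxSet x Q.1) + (δ / 3 : ℝ≥0)) := by gcongr
      _ = boxSet x Q.1 + ((δ / 3 : ℝ≥0) + (δ / 3 : ℝ≥0) + (δ / 3 : ℝ≥0)) := by ring
      _ ≤ boxSet x Q.1 + ε := by gcongr

theorem weakConv_of_tendsto {P : ℕ → Pyr} {Q : Pyr}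
    (h : ∀ x, Tendsto (fun n => boxSet x (P n).1) atTop (𝓝 (boxSet x Q.1))) : WeakConv P Q := by
  constructor
  · intro x hx
    have := h x
    rwa [(boxSet_eq_zero Q.2.closed).2 hx] at this
  · intro x hx
    rw [(h x).liminf_eq]
    exact pos_iff_ne_zero.2 fun h0 => hx ((boxSet_eq_zero Q.2.closed).1 h0)

/-- the topology induced by the distances from a dense sequence -/
noncomputable def Φ (u : ℕ → MM) (P : Pyr) : ℕ → ℝ≥0∞ := fun i => boxSet (u i) P.1

theorem induced_Φ_le_weakTop {u : ℕ → MM} (hu : ∀ x : MM, ∀ ε > 0, ∃ n, box x (u n) < ε) :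
    TopologicalSpace.induced (Φ u) inferInstance ≤ weakTop := by
  intro U hU
  let _ : TopologicalSpace Pyr := TopologicalSpace.induced (Φ u) inferInstance
  have hfc : FirstCountableTopology Pyr := Topology.IsInducing.firstCountableTopology (f := Φ u) ⟨rfl⟩
  rw [← isClosed_compl_iff]
  refine IsSeqClosed.isClosed ?_
  intro P Q hP hPQ hQ
  have h1 : Tendsto (fun n => Φ u (P n)) atTop (𝓝 (Φ u Q)) :=
    (continuous_induced_dom.tendsto Q).comp hPQ
  rw [tendsto_pi_nhds] at h1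
  have h2 := weakConv_of_tendsto (tendsto_all hu h1)
  obtain ⟨n, hn⟩ := (hU Q hQ P h2).exists
  exact hP n hn

theorem weakTop_le_fell : weakTop ≤ TopologicalSpace.induced pyrIncl fell := by
  rw [← continuous_iff_le_induced, continuous_generateFrom_iff]
  rintro A (⟨U, hU, rfl⟩ | ⟨K, hK, rfl⟩)
  · rintro Q ⟨x, hxQ, hxU⟩ P hP
    obtain ⟨ε, hε, hball⟩ := EMetric.isOpen_iff.1 hU x hxU
    filter_upwards [(hP.1 x hxQ).eventually (gt_mem_nhds hε)] with n hn
    obtain ⟨y, hy, hxy⟩ := boxSet_lt_iff.1 hn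
    refine ⟨y, hy, hball ?_⟩
    show box y x < ε
    rw [box_comm]
    exact hxy
  · intro Q hQ P hP
    have hQ' : Q.1 ∩ K = ∅ := hQ
    have h1 : ∀ y ∈ K, ∃ ε : ℝ≥0∞, 0 < ε ∧ ∀ᶠ n in atTop, ε ≤ boxSet y (P n).1 := by
      intro y hy
      have hyQ : y ∉ Q.1 := fun h => by
        have : y ∈ Q.1 ∩ K := ⟨h, hy⟩
        rw [hQ'] at this
        exact this
      obtain ⟨c, hc0, hc⟩ := exists_between (hP.2 y hyQ)
      exact ⟨c, hc0, (eventually_lt_of_lt_liminf hc).mono fun _ h => h.le⟩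
    choose! ε hε0 hε using h1
    obtain ⟨t, htK⟩ := hK.elim_nhds_subcover' (fun y _ => Metric.eball y (ε y))
      (fun y hy => Metric.eball_mem_nhds y (hε0 y hy))
    have h2 : ∀ᶠ n in atTop, ∀ y ∈ t, ε y ≤ boxSet y.1 (P n).1 := by
      rw [eventually_all_finset]
      intro y _
      exact hε y.1 y.2
    filter_upwards [h2] with n hn
    show (P n).1 ∩ K = ∅
    rw [eq_empty_iff_forall_notMem]
    rintro z ⟨hzP, hzK⟩
    obtain ⟨y, hy, hz⟩ := mem_iUnion₂.1 (htK hzK)
    have h3 : box z y < ε y := hz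
    rw [box_comm] at h3
    exact absurd (boxSet_lt_iff.2 ⟨z, hzP, h3⟩) (not_lt.2 (hn y hy))

theorem fell_le_wijsman : TopologicalSpace.induced pyrIncl fell ≤
    TopologicalSpace.induced pyrIncl wijsman := by
  rw [wijsman, induced_iInf]
  refine le_iInf fun x => ?_
  rw [induced_compose, ← continuous_iff_le_induced]
  let _ : TopologicalSpace Pyr := TopologicalSpace.induced pyrIncl fell
  have hcont : Continuous[_, fell] pyrIncl := continuous_induced_dom
  rw [OrderTopology.continuous_iff]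
  intro c
  constructor
  · rw [isOpen_iff_mem_nhds]
    intro P₀ hP₀
    have hP₀' : c < boxSet x P₀.1 := hP₀
    obtain ⟨c₁, hc₁, hc₁'⟩ := exists_between hP₀'
    obtain ⟨δ, hδ, hδ'⟩ := ENNReal.lt_iff_exists_add_pos_lt.1 hc₁'
    obtain ⟨N, D, h⟩ := exists_compact x hδ
    let K : Set MM := range (toMM (Cube N D)) ∩ {z | box x z ≤ c₁ + δ}
    have hK : IsCompact K := by
      refine (isCompact_range_toMM _).inter_right ?_
      have : Continuous fun z : MM => edist x z := continuous_const.edist continuous_id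
      exact isClosed_le this continuous_const
    have hopen : IsOpen (pyrIncl ⁻¹' {F : Cl | F.1 ∩ K = ∅}) :=
      @IsOpen.preimage Pyr Cl _ fell pyrIncl hcont _
        (TopologicalSpace.isOpen_generateFrom_of_mem (Or.inr ⟨K, hK, rfl⟩))
    refine mem_of_superset (hopen.mem_nhds ?_) ?_
    · show P₀.1 ∩ K = ∅
      rw [eq_empty_iff_forall_notMem]
      rintro z ⟨hz, _, hzK⟩
      exact absurd ((boxSet_le hz).trans hzK) (not_le.2 hδ')
    · intro P hP
      have hP' : P.1 ∩ K = ∅ := hP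
      show c < boxSet x P.1
      by_contra hlt
      obtain ⟨z, hzP, hzr, hz⟩ := h P.1 P.2.down c₁ (lt_of_le_of_lt (not_lt.1 hlt) hc₁)
      have : z ∈ P.1 ∩ K := ⟨hzP, hzr, hz⟩
      rw [hP'] at this
      exact this
  · have h1 : (fun P : Pyr => boxSet x (pyrIncl P).1) ⁻¹' Iio c =
        pyrIncl ⁻¹' {F : Cl | (F.1 ∩ Metric.eball x c).Nonempty} := by
      ext P
      constructor
      · intro h
        obtain ⟨y, hy, hxy⟩ := boxSet_lt_iff.1 h
        refine ⟨y, hy, ?_⟩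
        show box y x < c
        rw [box_comm]
        exact hxy
      · rintro ⟨y, hy, hxy⟩
        have hxy' : box y x < c := hxy
        rw [box_comm] at hxy'
        exact boxSet_lt_iff.2 ⟨y, hy, hxy'⟩
    show IsOpen ((fun P : Pyr => boxSet x (pyrIncl P).1) ⁻¹' Iio c)
    rw [h1]
    exact @IsOpen.preimage Pyr Cl _ fell pyrIncl hcont _
      (TopologicalSpace.isOpen_generateFrom_of_mem (Or.inl ⟨_, Metric.isOpen_eball, rfl⟩))

theorem wijsman_le_Φ (u : ℕ → MM) : TopologicalSpace.induced pyrIncl wijsman ≤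
    TopologicalSpace.induced (Φ u) inferInstance := by
  rw [← continuous_iff_le_induced]
  let _ : TopologicalSpace Pyr := TopologicalSpace.induced pyrIncl wijsman
  refine continuous_pi fun i => ?_
  have h1 : Continuous[_, wijsman] pyrIncl := continuous_induced_dom
  have h2 : @Continuous _ _ wijsman _ (fun F : Cl => boxSet (u i) F.1) := by
    rw [continuous_iff_le_induced]
    exact iInf_le (fun x : MM => TopologicalSpace.induced (fun F : Cl => boxSet x F.1)
      inferInstance) (u i)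
  exact @Continuous.comp _ _ _ _ wijsman _ _ _ h2 h1

theorem pyrIncl_injective : Function.Injective pyrIncl := fun _ _ h =>
  Subtype.ext (congrArg (fun F : Cl => F.1) h)

theorem weakTop_eq_fell : weakTop = TopologicalSpace.induced pyrIncl fell := by
  obtain ⟨u, hu⟩ := exists_dense
  exact le_antisymm weakTop_le_fell
    ((fell_le_wijsman.trans (wijsman_le_Φ u)).trans (induced_Φ_le_weakTop hu))

theorem weakTop_eq_wijsman : weakTop = TopologicalSpace.induced pyrIncl wijsman := by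
  obtain ⟨u, hu⟩ := exists_dense
  exact le_antisymm (weakTop_le_fell.trans fell_le_wijsman)
    ((wijsman_le_Φ u).trans (induced_Φ_le_weakTop hu))

theorem weakTop_eq_Φ {u : ℕ → MM} (hu : ∀ x : MM, ∀ ε > 0, ∃ n, box x (u n) < ε) :
    weakTop = TopologicalSpace.induced (Φ u) inferInstance :=
  le_antisymm ((weakTop_le_fell.trans fell_le_wijsman).trans (wijsman_le_Φ u))
    (induced_Φ_le_weakTop hu)

theorem weakTop_metrizable : @TopologicalSpace.MetrizableSpace Pyr weakTop := by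
  obtain ⟨u, hu⟩ := exists_dense
  let _ : TopologicalSpace Pyr := weakTop
  have hinj : Function.Injective (Φ u) := by
    intro P Q h
    apply Subtype.ext
    have h1 : ∀ x, boxSet x P.1 = boxSet x Q.1 := by
      intro x
      have h2 : Tendsto (fun _ : ℕ => boxSet x P.1) atTop (𝓝 (boxSet x Q.1)) := by
        refine tendsto_all (P := fun _ => P) hu (fun i => ?_) x
        have h3 : boxSet (u i) P.1 = boxSet (u i) Q.1 := congrFun h i
        rw [h3]
        exact tendsto_const_nhds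
      exact tendsto_nhds_unique tendsto_const_nhds h2
    ext x
    rw [← boxSet_eq_zero P.2.closed, ← boxSet_eq_zero Q.2.closed, h1]
  have hemb : IsEmbedding (Φ u) := ⟨⟨weakTop_eq_Φ hu⟩, hinj⟩
  exact hemb.metrizableSpace

theorem tendsto_weakTop_iff (P : ℕ → Pyr) (Q : Pyr) :
    Tendsto P atTop (@nhds Pyr weakTop Q) ↔ WeakConv P Q := by
  obtain ⟨u, hu⟩ := exists_dense
  constructor
  · intro h
    refine weakConv_of_tendsto (tendsto_all hu fun i => ?_)
    let _ : TopologicalSpace Pyr := weakTop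
    have hc : Continuous (Φ u) := by
      rw [continuous_iff_le_induced]
      exact (weakTop_eq_Φ hu).le
    exact ((continuous_apply i).tendsto _).comp ((hc.tendsto Q).comp h)
  · intro h
    let _ : TopologicalSpace Pyr := weakTop
    rw [tendsto_atTop_nhds]
    intro U hQU hU
    obtain ⟨n, hn⟩ := eventually_atTop.1 (hU Q hQU P h)
    exact ⟨n, hn⟩

theorem isWeakTopology_weakTop : IsWeakTopology weakTop :=
  ⟨weakTop_metrizable, tendsto_weakTop_iff⟩

theorem IsWeakTopology.eq {τ : TopologicalSpace Pyr} (h : IsWeakTopology τ) : τ = weakTop := by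
  apply le_antisymm
  · intro U hU
    let _ : TopologicalSpace Pyr := τ
    have hm : TopologicalSpace.MetrizableSpace Pyr := h.1
    rw [← isClosed_compl_iff]
    refine IsSeqClosed.isClosed ?_
    intro P Q hP hPQ hQ
    obtain ⟨n, hn⟩ := (hU Q hQ P ((h.2 P Q).1 hPQ)).exists
    exact hP n hn
  · intro U hU Q hQ P hP
    let _ : TopologicalSpace Pyr := τ
    have hU' : IsOpen U := hU
    exact ((h.2 P Q).2 hP) (hU'.mem_nhds hQ)

theorem existsUnique_weak : ∃! τ, IsWeakTopology τ :=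
  ⟨weakTop, isWeakTopology_weakTop, fun _ h => h.eq⟩

theorem embedding_fell (τ : TopologicalSpace Pyr) (h : IsWeakTopology τ) :
    @IsEmbedding Pyr Cl τ fell pyrIncl := by
  have h1 : τ = TopologicalSpace.induced pyrIncl fell := h.eq.trans weakTop_eq_fell
  exact @IsEmbedding.mk Pyr Cl τ fell pyrIncl (@IsInducing.mk Pyr Cl τ fell pyrIncl h1)
    pyrIncl_injective

theorem embedding_wijsman (τ : TopologicalSpace Pyr) (h : IsWeakTopology τ) :
    @IsEmbedding Pyr Cl τ wijsman pyrIncl := by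
  have h1 : τ = TopologicalSpace.induced pyrIncl wijsman := h.eq.trans weakTop_eq_wijsman
  exact @IsEmbedding.mk Pyr Cl τ wijsman pyrIncl (@IsInducing.mk Pyr Cl τ wijsman pyrIncl h1)
    pyrIncl_injective

end Q178.Box
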