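import Pool.Agent.Q178.Box.Core

/-!
# The key lemma: approximation by measures on cubes which belong to the pyramid
-/

open Set Filter Topology MeasureTheory NNReal ENNReal

namespace Q178.Box

/-- the cube `[0,D]^N` with the maximum metric -/
abbrev Cube (N : ℕ) (D : ℝ) : Type := Fin N → Icc (0 : ℝ) D

theorem prob_compl_le {Ω : Type} [MeasurableSpace Ω] {m : Measure Ω} [IsProbabilityMeasure m]
    {A : Set Ω} {ε : ℝ≥0∞} (hA : MeasurableSet A) (h : 1 - ε ≤ m A) : m Aᶜ ≤ ε := by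
  rw [prob_compl_eq_one_sub hA]
  exact tsub_le_iff_left.2 (by rw [← tsub_le_iff_right]; exact h)

/-- the coordinate functions -/
noncomputable def coord {Y : Type} [MetricSpace Y] {N : ℕ} {D : ℝ} (hD : 0 ≤ D)
    (B : Fin N → Set Y) (y : Y) : Cube N D :=
  fun i => ⟨min (Metric.infDist y (B i)) D, le_min Metric.infDist_nonneg hD, min_le_right _ _⟩

theorem coord_lipschitz {Y : Type} [MetricSpace Y] {N : ℕ} {D : ℝ} (hD : 0 ≤ D)
    (B : Fin N → Set Y) : LipschitzWith 1 (coord hD B) := by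
  refine LipschitzWith.of_dist_le_mul fun x y => ?_
  rw [NNReal.coe_one, one_mul, dist_pi_le_iff dist_nonneg]
  intro i
  have h1 := ((Metric.lipschitz_infDist_pt (B i)).min_const D).dist_le_mul x y
  rw [NNReal.coe_one, one_mul] at h1
  exact h1

theorem key (X : MMSpace) {δ : ℝ≥0} (hδ : 0 < δ) : ∃ N D : ℕ,
    ∀ P : Set MM, (∀ x ∈ P, ∀ y, Dom y x → y ∈ P) → ∀ r : ℝ≥0∞, boxSet X.cls P < r →
      ∃ (ν : Measure (Cube N D)) (_ : IsProbabilityMeasure ν), (core _ ν).cls ∈ P ∧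
        box X.cls (core _ ν).cls ≤ r + δ := by
  have hδ' : (0 : ℝ) < δ := hδ
  obtain ⟨As, hAm, hAb, hAd, hAU, hAdis⟩ :=
    SeparableSpace.exists_measurable_partition_diam_le X.carrier hδ'
  obtain ⟨N, hN⟩ : ∃ N, X.μ (⋃ j ∈ Iio N, As j)ᶜ < δ := by
    have exhaust := @tendsto_measure_biUnion_Ici_zero_of_pairwise_disjoint X.carrier _ X.μ _
                    As (fun n ↦ (hAm n).nullMeasurableSet) hAdis
    simp only [tendsto_atTop_nhds, Function.comp_apply] at exhaust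
    obtain ⟨N, hN⟩ := exhaust (Iio δ) (by simpa using hδ) isOpen_Iio
    refine ⟨N, ?_⟩
    have rewr : ⋃ i, ⋃ (_ : N ≤ i), As i = (⋃ i, ⋃ (_ : i < N), As i)ᶜ := by
      simpa only [mem_Iio, compl_Iio, mem_Ici] using
        (biUnion_compl_eq_of_pairwise_disjoint_of_iUnion_eq_univ hAU hAdis (Iio N)).symm
    simpa only [mem_Iio, ← rewr, gt_iff_lt] using hN N le_rfl
  let U : Set X := ⋃ j ∈ Iio N, As j
  have hUm : MeasurableSet U := MeasurableSet.biUnion (to_countable _) fun j _ => hAm j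
  have hUb : Bornology.IsBounded U :=
    (Bornology.isBounded_biUnion (finite_Iio N)).2 fun j _ => hAb j
  obtain ⟨C, hC⟩ := Metric.isBounded_iff.1 hUb
  refine ⟨N, ⌈max C 0⌉₊, ?_⟩
  intro P hP r hr
  have hD : (0 : ℝ) ≤ (⌈max C 0⌉₊ : ℝ) := Nat.cast_nonneg _
  obtain ⟨y, hyP, hy⟩ : ∃ y ∈ P, box X.cls y < r := by
    simp only [boxSet, iInf_lt_iff] at hr
    obtain ⟨y, hy, hr⟩ := hr
    exact ⟨y, hy, hr⟩
  obtain ⟨Y, rfl⟩ : ∃ Y : MMSpace, Y.cls = y := Quotient.exists_rep y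
  obtain ⟨ε, hεr, φ, ψ, ⟨hφ, hφm⟩, ⟨hψ, hψm⟩, I₀, hI, hI', hd⟩ := boxSp_lt_iff.1 hy
  let B : Fin N → Set Y := fun i => ψ '' {s | s ∈ I₀ ∧ φ s ∈ As i}
  let f : Y → Cube N (⌈max C 0⌉₊ : ℝ) := coord hD B
  have hf : LipschitzWith 1 f := coord_lipschitz hD B
  have hfm : Measurable f := hf.continuous.measurable
  have hprob : IsProbabilityMeasure (Measure.map f Y.μ) :=
    Measure.isProbabilityMeasure_map hfm.aemeasurable
  refine ⟨Measure.map f Y.μ, hprob, hP _ hyP _ (dom_core Y f hf), ?_⟩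
  have hS : MeasurableSet (I₀ ∩ φ ⁻¹' U) := hI.inter (hφ hUm)
  refine (box_core_le (Measure.map f Y.μ) leb (f := φ) (g := f ∘ ψ) hφ (hfm.comp hψ) hφm ?_ hS
    (ε := ε + δ) ?_ ?_).trans ?_
  · rw [← Measure.map_map hfm hψ, hψm]
  · rw [compl_inter, ENNReal.coe_add]
    refine (measure_union_le _ _).trans (add_le_add (prob_compl_le hI hI') ?_)
    rw [← preimage_compl, ← Measure.map_apply hφ hUm.compl, hφm]
    exact hN.le
  · rintro s ⟨hs, hsU⟩ t ⟨ht, htU⟩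
    have h1 : dist (φ s) (φ t) ≤ (⌈max C 0⌉₊ : ℝ) :=
      ((hC hsU htU).trans (le_max_left _ _)).trans (Nat.le_ceil _)
    have h2 := abs_le.1 (hd s hs t ht)
    have h3 : dist ((f ∘ ψ) s) ((f ∘ ψ) t) ≤ dist (ψ s) (ψ t) := by
      have := hf.dist_le_mul (ψ s) (ψ t)
      rwa [NNReal.coe_one, one_mul] at this
    obtain ⟨i, hi, hsi⟩ := mem_iUnion₂.1 hsU
    have hiN : i < N := hi
    let k : Fin N := ⟨i, hiN⟩
    have hsB : ψ s ∈ B k := ⟨s, ⟨hs, hsi⟩, rfl⟩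
    have h4 : dist (φ s) (φ t) - δ - ε ≤ Metric.infDist (ψ t) (B k) := by
      refine (Metric.le_infDist ⟨_, hsB⟩).2 ?_
      rintro _ ⟨s', ⟨hs', hs'i⟩, rfl⟩
      have h5 := abs_le.1 (hd t ht s' hs')
      have h6 : dist (φ s) (φ s') ≤ δ :=
        (Metric.dist_le_diam_of_mem (hAb i) hsi hs'i).trans (hAd i)
      have h7 : dist (φ s) (φ t) ≤ dist (φ s) (φ s') + dist (φ t) (φ s') := by
        rw [dist_comm (φ t)]
        exact dist_triangle _ _ _
      linarith [h5.1, h5.2]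
    have h5 : dist (φ s) (φ t) - δ - ε ≤ dist ((f ∘ ψ) s) ((f ∘ ψ) t) := by
      refine le_trans ?_ (dist_le_pi_dist _ _ k)
      have h6 : dist (((f ∘ ψ) s) k) (((f ∘ ψ) t) k) =
          |min (Metric.infDist (ψ s) (B k)) (⌈max C 0⌉₊ : ℝ) -
            min (Metric.infDist (ψ t) (B k)) (⌈max C 0⌉₊ : ℝ)| := rfl
      rw [h6, Metric.infDist_zero_of_mem hsB, min_eq_left hD, zero_sub, abs_neg]
      refine le_trans ?_ (le_abs_self _)
      refine le_min h4 ?_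
      have h7 : (0 : ℝ) ≤ δ := δ.2
      have h8 : (0 : ℝ) ≤ ε := ε.2
      linarith
    rw [abs_le]
    push_cast
    have h7 : (0 : ℝ) ≤ δ := δ.2
    constructor <;> linarith [h2.1, h2.2]
  · rw [ENNReal.coe_add]
    gcongr

end Q178.Box
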