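import Pool.Agent.Q178.Box.Base

/-!
# The triangle inequality for the box distance
-/

open Set Filter Topology MeasureTheory NNReal ENNReal ProbabilityTheory

namespace Q178.Box

/-- the inclusion of `[0,1)` in `[0,1]` -/
def incl (t : Ico (0 : ℝ) 1) : unitInterval := ⟨t.1, t.2.1, t.2.2.le⟩

theorem measurable_incl : Measurable incl := measurable_subtype_coe.subtype_mk

theorem map_incl : Measure.map incl leb = (volume : Measure unitInterval) := by
  have hI : MeasurableEmbedding (Subtype.val : Ico (0 : ℝ) 1 → ℝ) :=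
    MeasurableEmbedding.subtype_coe measurableSet_Ico
  have hJ : MeasurableEmbedding (Subtype.val : unitInterval → ℝ) :=
    MeasurableEmbedding.subtype_coe measurableSet_Icc
  ext s hs
  rw [Measure.map_apply measurable_incl hs, leb, hI.comap_apply]
  have h1 : (volume : Measure unitInterval) s = volume ((Subtype.val : unitInterval → ℝ) '' s) :=
    hJ.comap_apply _ _
  rw [h1]
  apply le_antisymm
  · apply measure_mono
    rintro _ ⟨t, ht, rfl⟩
    exact ⟨incl t, ht, rfl⟩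
  · have h2 : (Subtype.val : unitInterval → ℝ) '' s ⊆
        (Subtype.val : Ico (0 : ℝ) 1 → ℝ) '' (incl ⁻¹' s) ∪ {1} := by
      rintro _ ⟨t, ht, rfl⟩
      by_cases h : t.1 = 1
      · exact Or.inr h
      · left
        exact ⟨⟨t.1, t.2.1, lt_of_le_of_ne t.2.2 h⟩, ht, rfl⟩
    refine (measure_mono h2).trans ((measure_union_le _ _).trans ?_)
    rw [Real.volume_singleton, add_zero]

instance : IsProbabilityMeasure leb := by
  constructor
  have h1 : Measure.map incl leb univ = 1 := by rw [map_incl]; exact measure_univ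
  rwa [Measure.map_apply measurable_incl MeasurableSet.univ, preimage_univ] at h1

instance : StandardBorelSpace (Ico (0 : ℝ) 1) := measurableSet_Ico.standardBorel

instance : Nonempty (Ico (0 : ℝ) 1) := ⟨⟨0, le_rfl, zero_lt_one⟩⟩

/-- Every standard Borel probability space is an image of `[0,1)`. -/
theorem exists_param {Ω : Type} [MeasurableSpace Ω] [StandardBorelSpace Ω] (m : Measure Ω)
    [IsProbabilityMeasure m] :
    ∃ θ : Ico (0 : ℝ) 1 → Ω, Measurable θ ∧ Measure.map θ leb = m := by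
  have : Nonempty Ω := m.nonempty_of_neZero
  obtain ⟨f, hf, hfm⟩ := m.exists_measurable_map_eq
  refine ⟨f ∘ incl, hf.comp measurable_incl, ?_⟩
  rw [← Measure.map_map hf measurable_incl, map_incl, hfm]

theorem boxGood_of {Ω : Type} [MeasurableSpace Ω] [StandardBorelSpace Ω] (m : Measure Ω)
    [IsProbabilityMeasure m] {X Y : MMSpace} {f : Ω → X} {g : Ω → Y} (hf : Measurable f)
    (hg : Measurable g) (hfm : Measure.map f m = X.μ) (hgm : Measure.map g m = Y.μ) {S : Set Ω}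
    (hS : MeasurableSet S) {ε : ℝ≥0} (hε : 1 - (ε : ℝ≥0∞) ≤ m S)
    (hd : ∀ s ∈ S, ∀ t ∈ S, |dist (f s) (f t) - dist (g s) (g t)| ≤ ε) : BoxGood ε X Y := by
  obtain ⟨θ, hθ, hθm⟩ := exists_param m
  refine ⟨f ∘ θ, g ∘ θ, ⟨hf.comp hθ, ?_⟩, ⟨hg.comp hθ, ?_⟩, θ ⁻¹' S, hθ hS, ?_, ?_⟩
  · rw [← Measure.map_map hf hθ, hθm, hfm]
  · rw [← Measure.map_map hg hθ, hθm, hgm]
  · rw [← Measure.map_apply hθ hS, hθm]
    exact hε
  · intro s hs t ht
    exact hd _ hs _ ht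

/-- gluing -/
theorem BoxGood.trans {ε₁ ε₂ : ℝ≥0} {X Y Z : MMSpace} (h₁ : BoxGood ε₁ X Y)
    (h₂ : BoxGood ε₂ Y Z) : BoxGood (ε₁ + ε₂) X Z := by
  obtain ⟨φ₁, ψ₁, ⟨hφ₁, hφ₁m⟩, ⟨hψ₁, hψ₁m⟩, I₁, hI₁, hI₁', hd₁⟩ := h₁
  obtain ⟨φ₂, ψ₂, ⟨hφ₂, hφ₂m⟩, ⟨hψ₂, hψ₂m⟩, I₂, hI₂, hI₂', hd₂⟩ := h₂
  let I := Ico (0 : ℝ) 1
  have hpY : PolishSpace Y.carrier := inferInstance
  have hsY : StandardBorelSpace Y.carrier := inferInstance
  have hm₁ : Measurable fun s : I => (ψ₁ s, s) := hψ₁.prodMk measurable_id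
  have hm₂ : Measurable fun s : I => (φ₂ s, s) := hφ₂.prodMk measurable_id
  let ρ₁ : Measure (Y × I) := Measure.map (fun s => (ψ₁ s, s)) leb
  let ρ₂ : Measure (Y × I) := Measure.map (fun s => (φ₂ s, s)) leb
  have hρ₁p : IsProbabilityMeasure ρ₁ := Measure.isProbabilityMeasure_map hm₁.aemeasurable
  have hρ₂p : IsProbabilityMeasure ρ₂ := Measure.isProbabilityMeasure_map hm₂.aemeasurable
  have hf₁ : ρ₁.fst = Y.μ := by
    rw [Measure.fst, Measure.map_map measurable_fst hm₁]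
    exact hψ₁m
  have hf₂ : ρ₂.fst = Y.μ := by
    rw [Measure.fst, Measure.map_map measurable_fst hm₂]
    exact hφ₂m
  let κ₁ := ρ₁.condKernel
  let κ₂ := ρ₂.condKernel
  have hc₁ : Y.μ ⊗ₘ κ₁ = ρ₁ := by rw [← hf₁]; exact ρ₁.disintegrate ρ₁.condKernel
  have hc₂ : Y.μ ⊗ₘ κ₂ = ρ₂ := by rw [← hf₂]; exact ρ₂.disintegrate ρ₂.condKernel
  let m : Measure (Y × (I × I)) := Y.μ ⊗ₘ (κ₁ ×ₖ κ₂)
  have hm1 : Measure.map (fun p : Y × (I × I) => (p.1, p.2.1)) m = ρ₁ := by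
    have h := Measure.compProd_map (μ := Y.μ) (κ := κ₁ ×ₖ κ₂) (f := Prod.fst) measurable_fst
    rw [← Kernel.fst_eq, Kernel.fst_prod, hc₁] at h
    rw [h]
    rfl
  have hm2 : Measure.map (fun p : Y × (I × I) => (p.1, p.2.2)) m = ρ₂ := by
    have h := Measure.compProd_map (μ := Y.μ) (κ := κ₁ ×ₖ κ₂) (f := Prod.snd) measurable_snd
    rw [← Kernel.snd_eq, Kernel.snd_prod, hc₂] at h
    rw [h]
    rfl
  have hq1 : Measurable (fun p : Y × (I × I) => (p.1, p.2.1)) := by fun_prop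
  have hq2 : Measurable (fun p : Y × (I × I) => (p.1, p.2.2)) := by fun_prop
  -- the good sets
  let T₁ : Set (Y × I) := {q | q.2 ∈ I₁ ∧ ψ₁ q.2 = q.1}
  let T₂ : Set (Y × I) := {q | q.2 ∈ I₂ ∧ φ₂ q.2 = q.1}
  have hT₁ : MeasurableSet T₁ :=
    (measurable_snd hI₁).inter (measurableSet_eq_fun (hψ₁.comp measurable_snd) measurable_fst)
  have hT₂ : MeasurableSet T₂ :=
    (measurable_snd hI₂).inter (measurableSet_eq_fun (hφ₂.comp measurable_snd) measurable_fst)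
  have hcompl : ∀ {A : Set I} {ε : ℝ≥0}, MeasurableSet A → 1 - (ε : ℝ≥0∞) ≤ leb A → leb Aᶜ ≤ ε := by
    intro A ε hA h
    rw [prob_compl_eq_one_sub hA]
    exact tsub_le_iff_left.2 (by rw [← tsub_le_iff_right]; exact h)
  have hT₁' : ρ₁ T₁ᶜ ≤ ε₁ := by
    rw [Measure.map_apply hm₁ hT₁.compl]
    refine le_trans (measure_mono ?_) (hcompl hI₁ hI₁')
    intro s hs hs'
    exact hs ⟨hs', rfl⟩
  have hT₂' : ρ₂ T₂ᶜ ≤ ε₂ := by
    rw [Measure.map_apply hm₂ hT₂.compl]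
    refine le_trans (measure_mono ?_) (hcompl hI₂ hI₂')
    intro s hs hs'
    exact hs ⟨hs', rfl⟩
  let S : Set (Y × (I × I)) := {p | (p.1, p.2.1) ∈ T₁ ∧ (p.1, p.2.2) ∈ T₂}
  have hS : MeasurableSet S := (hq1 hT₁).inter (hq2 hT₂)
  have hSc : m Sᶜ ≤ ε₁ + ε₂ := by
    have h1 : Sᶜ ⊆ (fun p : Y × (I × I) => (p.1, p.2.1)) ⁻¹' T₁ᶜ ∪
        (fun p : Y × (I × I) => (p.1, p.2.2)) ⁻¹' T₂ᶜ := by
      intro p hp
      by_cases h : (p.1, p.2.1) ∈ T₁
      · right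
        exact fun h' => hp ⟨h, h'⟩
      · left
        exact h
    refine (measure_mono h1).trans ((measure_union_le _ _).trans ?_)
    rw [← Measure.map_apply hq1 hT₁.compl, ← Measure.map_apply hq2 hT₂.compl, hm1, hm2]
    exact add_le_add hT₁' hT₂'
  refine boxGood_of m (f := fun p => φ₁ p.2.1) (g := fun p => ψ₂ p.2.2)
    (hφ₁.comp (by fun_prop)) (hψ₂.comp (by fun_prop)) ?_ ?_ hS ?_ ?_
  · have h1 : (fun p : Y × (I × I) => φ₁ p.2.1) =
        φ₁ ∘ Prod.snd ∘ (fun p : Y × (I × I) => (p.1, p.2.1)) := rfl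
    rw [h1, ← Measure.map_map hφ₁ (measurable_snd.comp hq1), ← Measure.map_map measurable_snd hq1,
      hm1, Measure.map_map measurable_snd hm₁,
      show (Prod.snd ∘ fun s : I => (ψ₁ s, s)) = id from rfl, Measure.map_id]
    exact hφ₁m
  · have h1 : (fun p : Y × (I × I) => ψ₂ p.2.2) =
        ψ₂ ∘ Prod.snd ∘ (fun p : Y × (I × I) => (p.1, p.2.2)) := rfl
    rw [h1, ← Measure.map_map hψ₂ (measurable_snd.comp hq2), ← Measure.map_map measurable_snd hq2,
      hm2, Measure.map_map measurable_snd hm₂,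
      show (Prod.snd ∘ fun s : I => (φ₂ s, s)) = id from rfl, Measure.map_id]
    exact hψ₂m
  · have h1 : m S + m Sᶜ = 1 := by rw [measure_add_measure_compl hS, measure_univ]
    rw [tsub_le_iff_right, ← h1, ENNReal.coe_add]
    gcongr
  · rintro ⟨y, s, t⟩ ⟨⟨hs, hys⟩, ⟨ht, hyt⟩⟩ ⟨y', s', t'⟩ ⟨⟨hs', hys'⟩, ⟨ht', hyt'⟩⟩
    have e1 := hd₁ s hs s' hs'
    have e2 := hd₂ t ht t' ht'
    simp only at hys hyt hys' hyt'
    rw [hys, hys'] at e1
    rw [hyt, hyt'] at e2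
    push_cast
    rw [abs_le] at *
    constructor <;> linarith [e1.1, e1.2, e2.1, e2.2]

theorem boxSp_triangle (X Y Z : MMSpace) : boxSp X Z ≤ boxSp X Y + boxSp Y Z := by
  unfold boxSp
  simp only [ENNReal.iInf_add, ENNReal.add_iInf]
  refine le_iInf fun ε₂ => le_iInf fun h₂ => le_iInf fun ε₁ => le_iInf fun h₁ => ?_
  exact iInf₂_le_of_le (ε₁ + ε₂) (h₁.trans h₂) (by push_cast; exact le_rfl)

theorem boxSp_self (X : MMSpace) : boxSp X X = 0 := by
  have hs : StandardBorelSpace X.carrier := inferInstance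
  have h : BoxGood 0 X X := boxGood_of X.μ (f := id) (g := id) measurable_id measurable_id
    Measure.map_id Measure.map_id MeasurableSet.univ (by simp) (by simp)
  exact le_antisymm (iInf₂_le_of_le 0 h (by simp)) zero_le

theorem boxSp_le_one (X Y : MMSpace) : boxSp X Y ≤ 1 := by
  have hs : StandardBorelSpace X.carrier := inferInstance
  have hs' : StandardBorelSpace Y.carrier := inferInstance
  obtain ⟨φ, hφ⟩ := exists_param X.μ
  obtain ⟨ψ, hψ⟩ := exists_param Y.μ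
  have h : BoxGood 1 X Y := ⟨φ, ψ, hφ, hψ, ∅, MeasurableSet.empty, by simp, by simp⟩
  exact iInf₂_le_of_le 1 h (by simp)

theorem boxSp_lt_iff {X Y : MMSpace} {r : ℝ≥0∞} :
    boxSp X Y < r ↔ ∃ ε : ℝ≥0, (ε : ℝ≥0∞) < r ∧ BoxGood ε X Y := by
  unfold boxSp
  simp only [iInf_lt_iff]
  constructor
  · rintro ⟨ε, h, hr⟩
    exact ⟨ε, hr, h⟩
  · rintro ⟨ε, hr, h⟩
    exact ⟨ε, h, hr⟩

theorem boxSp_le {X Y : MMSpace} {ε : ℝ≥0} (h : BoxGood ε X Y) : boxSp X Y ≤ ε :=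
  iInf₂_le_of_le ε h le_rfl

end Q178.Box
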